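import Mathlib
import Pool.Agent.V7H65.HD.GI

/-!
Circuits of small formal degree, with guesses or random bits, for isomorphism and for
non-isomorphism of two-regular graphs.
-/

set_option autoImplicit false

namespace Pool.Agent.Results.MP_128e7d_lc.FormalDegreeH65

open Finset Pool.Agent.H526R2.GI Pool.Agent.W896.RK Pool.Agent.V7H65.HD

/-- Let `U` be a circuit (literals at the inputs, conjunctions of fan-in two, disjunctions of any
fan-in) whose inputs are the adjacency bits of two graphs on `n` vertices and `g` further bits `y`.
Let the formal degrees of `U` in the bits of the first graph have sum at most `k n²`; the bits of the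
second graph and the bits `y` may be read arbitrarily often. Suppose that for all pairs of two-regular
graphs, if they are not isomorphic then `U` accepts them for at least `2 ^ (g - μ)` of all `y`, and
for no `y` otherwise (or the same with isomorphic and non-isomorphic exchanged). Then the logarithm
of the size of `U` is at least `n / 2 ^ (1002 (k + 1)) - μ - 1`. -/
theorem result (n k g μ : ℕ) (U : Circ (Var n ⊕ Fin g)) (d : U.G → Pr n → ℕ)
    (hd : IsDeg U (fun e => Sum.inl (Sum.inl e)) d) (hk : ∑ e, d U.out e ≤ k * n ^ 2)
    (A B : (Var n → Bool) → Prop)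
    (hAB : (A = (fun z => ¬ IsIso z) ∧ B = fun z => IsIso z) ∨
      (A = (fun z => IsIso z) ∧ B = fun z => ¬ IsIso z))
    (hA : ∀ z, TwoRegPair z → A z →
      2 ^ g ≤ 2 ^ μ * Nat.card {y : Fin g → Bool // U.Val (Sum.elim z y) U.out})
    (hB : ∀ z, TwoRegPair z → B z → ∀ y, ¬ U.Val (Sum.elim z y) U.out) :
    n ≤ 2 ^ (1002 * (k + 1)) * (μ + Nat.log 2 (Fintype.card U.G) + 1) :=
  gi_final n k g μ U d hd hk A B hAB.symm hA hB

end Pool.Agent.Results.MP_128e7d_lc.FormalDegreeH65
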