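import Mathlib
import Pool.Agent.V7H65.GG.Main
import Pool.Agent.V7H65.GP.Up

/-!
Graph isomorphism with a gap, and random adaptive algorithms which run semidefinite programs that
are symmetric on some disjoint quadruples of vertices of the first graph only: they do not tell the
isomorphic pairs of graphs from the pairs that are far from isomorphic.

Definitions used from the library files:

* `Far G G'` (`Pool/Agent/V7H65/GG/Main.lean`): the graphs `G`, `G'` on the same set of vertices have
  the same number of edges, at least one, and every bijection of the vertices maps at least the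
  fraction `1 / 288` of the edges of `G` to pairs that are not edges of `G'`.
* `SDP I D` (`Pool/Agent/H550R2/Lift/Prog.lean`): a semidefinite program of order `|D|` with input
  variables `I`, an affine space `L` of pairs of an input vector and a matrix; it accepts the vector
  `v` if some positive semidefinite matrix `Y` has `(v, Y) ∈ L` (`SDP.Acc`); `gvec G` is the
  characteristic vector of the set of edges of `G`; pairs of graphs on `V` are read as one graph
  `G ⊕g H` on `V ⊕ V`; `edPerm` is the action of permutations of the vertices on the pairs of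
  vertices; `P.SymOn edPerm b`: every even permutation of the quadruple `b` extends to an
  automorphism of the program `P`, an orthogonal matrix `T` such that `(v, Y) ∈ L` if and only if
  `(σ v, T Y Tᵀ) ∈ L`; `fstB b` is the quadruple `b` of vertices of the first graph.
* `DTree I`: adaptive algorithms (decision trees) which run programs of arbitrary orders `d` on the
  input vector; `DTree.run`: their answer; `DTree.All p`: all their programs have the property `p`.
-/

set_option autoImplicit false

namespace Pool.Agent.Results.MP_128e7d_lc.GapSDPH65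

open Pool.Agent.V7H65.GG
open Pool.Agent.V7H65.GP (DTree run_eq)
open Pool.Agent.H550R2.Lift (SDP gvec edPerm fstB)

/-- The blocks are pairwise disjoint. -/
def DisjointBlocks {V : Type} {r : ℕ} (blk : Fin r → (Fin 4 ↪ V)) : Prop :=
  Pairwise fun i j => Disjoint (Set.range (blk i)) (Set.range (blk j))

open Classical in
/-- The probability that the random algorithm `R`, which is `R ω` with probability `p ω`, accepts
the pair `(G, H)` of graphs. -/
noncomputable def accProb {V Ω : Type} [Fintype Ω] (p : Ω → ℝ) (R : Ω → DTree (Sym2 (V ⊕ V)))
    (G H : SimpleGraph V) : ℝ := ∑ ω, if (R ω).run (gvec (G ⊕g H)) = true then p ω else 0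

/-- The program accepts the isomorphic pairs and rejects the pairs with `Far` (if `b` holds), or the
other way round (if `b` does not hold). -/
def Separates {V D : Type} (P : SDP (Sym2 (V ⊕ V)) D) (b : Prop) : Prop :=
  ∀ G H : SimpleGraph V, (Nonempty (G ≃g H) → (P.Acc (gvec (G ⊕g H)) ↔ b)) ∧
    (Far G H → (P.Acc (gvec (G ⊕g H)) ↔ ¬ b))

/-- There is a constant `C` such that the following holds.

1. If `V` is finite and has `r ≥ C k > 0` disjoint quadruples then there are two graphs `G`, `G'` on
`V` with equally many edges, at most `2 r` and at least one, such that every bijection loses at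
least the fraction `1 / 288` of the edges, which are treated in the same way by all semidefinite
programs of order less than `3 ^ (k / 2)` that are symmetric on all the quadruples; and for every
graph `H` on `V` the pairs `(G, H)`, `(G', H)` are treated in the same way by all semidefinite
programs of order less than `3 ^ (k / 2)` that are symmetric on the quadruples of the first graph.

2. Suppose that a random algorithm runs adaptively any number of semidefinite programs of order at
most `s`, symmetric on `r` disjoint quadruples of the first graph, and accepts the isomorphic pairs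
of graphs with at most `2 r` edges each with probability more than `θ`, and the pairs which are far
from isomorphic with probability at most `θ`. Then `3 ^ (r / C) ≤ s ^ 2 + 1`.

3. A semidefinite program which separates these two classes of pairs can be made symmetric on any
`r` disjoint quadruples of the first graph if its order is multiplied by `12 ^ r`. -/
theorem result :
    (∃ C : ℕ, 0 < C ∧
      (∀ (V : Type) [Finite V] (r k : ℕ), 0 < k → C * k ≤ r →
        ∀ blk : Fin r → (Fin 4 ↪ V), DisjointBlocks blk →
        ∃ G G' : SimpleGraph V, Far G G' ∧ G.edgeSet.ncard ≤ 2 * r ∧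
          (∀ (D : Type) [Fintype D] [DecidableEq D] (P : SDP (Sym2 V) D),
            (∀ i, P.SymOn edPerm (blk i)) → Fintype.card D ^ 2 < 3 ^ k →
            (P.Acc (gvec G) ↔ P.Acc (gvec G'))) ∧
          ∀ (D : Type) [Fintype D] [DecidableEq D] (P : SDP (Sym2 (V ⊕ V)) D),
            (∀ i, P.SymOn edPerm (fstB (blk i))) → Fintype.card D ^ 2 < 3 ^ k →
            ∀ H : SimpleGraph V, (P.Acc (gvec (G ⊕g H)) ↔ P.Acc (gvec (G' ⊕g H)))) ∧
      ∀ (V : Type) [Finite V] (r s : ℕ) (blk : Fin r → (Fin 4 ↪ V)), DisjointBlocks blk →
        ∀ (Ω : Type) [Fintype Ω] (p : Ω → ℝ) (R : Ω → DTree (Sym2 (V ⊕ V))) (θ : ℝ),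
          (∀ ω, (R ω).All fun d P => d ≤ s ∧ ∀ i, P.SymOn edPerm (fstB (blk i))) →
          (∀ G H : SimpleGraph V, G.edgeSet.ncard ≤ 2 * r → H.edgeSet.ncard ≤ 2 * r →
            (Nonempty (G ≃g H) → θ < accProb p R G H) ∧ (Far G H → accProb p R G H ≤ θ)) →
          3 ^ (r / C) ≤ s ^ 2 + 1) ∧
    ∀ (V D : Type) [Finite V] [Fintype D] [DecidableEq D] (P : SDP (Sym2 (V ⊕ V)) D) (b : Prop),
      Separates P b → ∀ (r : ℕ) (blk : Fin r → (Fin 4 ↪ V)), DisjointBlocks blk →
      ∃ (D' : Type) (_ : Fintype D') (_ : DecidableEq D') (P' : SDP (Sym2 (V ⊕ V)) D'),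
        Fintype.card D' = 12 ^ r * Fintype.card D ∧ (∀ i, P'.SymOn edPerm (fstB (blk i))) ∧
        Separates P' b := by
  classical
  refine ⟨⟨CC, by unfold CC; norm_num,
    fun V _ r k hk hr blk hd => gap_pair V r k hk hr blk hd, ?_⟩, ?_⟩
  · intro V _ r s blk hd Ω _ p R θ hR hcor
    rcases Nat.eq_zero_or_pos (r / CC) with h0 | h0
    · rw [h0, pow_zero]
      exact Nat.le_add_left 1 _
    · by_contra hlt
      rw [not_le] at hlt
      obtain ⟨G, G', h1, h2, -, h3⟩ := gap_pair V r (r / CC) h0 (Nat.mul_div_le r CC) blk hd
      have h2' : G'.edgeSet.ncard ≤ 2 * r := by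
        rw [← h1.2.1]
        exact h2
      have e1 : ∀ ω, (R ω).run (gvec (G ⊕g G')) = (R ω).run (gvec (G' ⊕g G')) := by
        intro ω
        refine run_eq (p := fun d P => d ≤ s ∧ ∀ i, P.SymOn edPerm (fstB (blk i))) ?_ (R ω) (hR ω)
        rintro d P ⟨hd1, hd2⟩
        refine h3 (Fin d) P hd2 ?_ G'
        rw [Fintype.card_fin]
        have := Nat.pow_le_pow_left hd1 2
        omega
      have e2 : accProb p R G G' = accProb p R G' G' := by
        unfold accProb
        refine Finset.sum_congr rfl fun ω _ => ?_
        rw [e1 ω]
      have c1 := (hcor G' G' h2' h2').1 ⟨SimpleGraph.Iso.refl⟩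
      have c2 := (hcor G G' h2 h2').2 h1
      rw [← e2] at c1
      exact absurd c1 (not_lt.2 c2)
  · intro V D _ _ _ P b hP r blk hd
    exact sep_upper V D P b hP r blk hd

end Pool.Agent.Results.MP_128e7d_lc.GapSDPH65
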