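import Pool.Agent.V7H15.Tw.AnyRead

/-!
# Circuits and networks for graph isomorphism: treewidth, complete minors, size, area and time

Circuits have unbounded fan-in AND, OR, XOR, NAND, ... gates, any depth and any number of guess
bits. Suppose that a circuit decides isomorphism of two graphs with `n` vertices, and that its gates
are placed at the vertices of a graph `H`, at most `T` at each vertex, so that all wires join gates
at equal or adjacent vertices (the graph of the circuit itself is the case `T = 1`).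

First part: at least half of the bits of each graph are read at up to `k` places, where
`16 ^ k ≤ n`. Then `H` has treewidth of order at least `n ^ 2 / (k ^ 2 * 4 ^ k * T)`, and `H` has a
complete minor of order `h` as soon as `k ^ 4 * 16 ^ k * h ^ 3 * T ^ 2 * A` is less than a small
multiple of `n ^ 4`, where `A` is the number of vertices of `H`. So for planar networks, and fixed
`k`, the product `A * T ^ 2` is at least of order `n ^ 4`, the square of the length of the input.

Second part: no bound for the number of places at which bits are read. If the circuit has fewer than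
`n ^ 2 * log n / (80 * m)` gates, then `H` has treewidth at least `n ^ (2 - 1 / (4 * m)) / T`, and
`H` has a complete minor of order `h` as soon as `h ^ 3 * T ^ 2 * A ≤ n ^ (4 - 1 / (2 * m))`. So
circuits for graph isomorphism of treewidth less than `n ^ (2 - ε)`, and planar circuits, have at
least a constant times `n ^ 2 * log n` gates, which is more than linear in the length of the input.
-/

set_option autoImplicit false

namespace Pool.Agent.Results.MP_128e7d_lc.MinorFreeCircuitsH15

open Pool.Agent.V7H15.Tw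

theorem result (n : ℕ)
    (Y : Type) [Fintype Y] (s : ℕ) (C : Circuit Y s) (out : Y ⊕ Fin s) (ℓ : Y → Bool × Pr n)
    (hC : ∀ z : Bool × Pr n → Bool,
      Nonempty (graphOf (fun e => z (false, e)) ≃g graphOf (fun e => z (true, e))) ↔
        ∃ v, C.Run (fun y => z (ℓ y)) v ∧ v out = true)
    (V : Type) [Fintype V] (H : SimpleGraph V) (T : ℕ) (f : Y ⊕ Fin s → V)
    (hf : Placed C H T f) :
    (∀ k : ℕ, 2 ^ 30 ≤ n → 0 < k → 16 ^ k ≤ n →
      (∀ b, Fintype.card (Pr n) ≤ 2 * {e : Pr n | {y | ℓ y = (b, e)}.ncard ≤ k}.ncard) →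
      (∀ D : TreeDec H, ∃ i, n ^ 2 ≤ 2 * 10 ^ 4 * k ^ 2 * 4 ^ k * T * (D.bag i).card) ∧
      ∀ h : ℕ, 16 * 10 ^ 8 * k ^ 4 * 16 ^ k * h ^ 3 * T ^ 2 * Fintype.card V < n ^ 4 →
        CliqueMinor H h) ∧
    (∀ m : ℕ, 0 < m → 2 ^ (200 * m) ≤ n →
      80 * m * (Fintype.card Y + s) < n ^ 2 * Nat.log 2 n →
      (∀ D : TreeDec H, ∃ i, n ^ (8 * m) ≤ n * (T * (D.bag i).card) ^ (4 * m)) ∧
      ∀ h : ℕ, n * (h ^ 3 * T ^ 2 * Fintype.card V) ^ (2 * m) ≤ n ^ (8 * m) →
        CliqueMinor H h) := by
  constructor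
  · intro k hn hk hkn hℓ
    have hw : ∀ w, Halves H w → n ^ 2 ≤ 2 * 10 ^ 4 * k ^ 2 * 4 ^ k * T * w := by
      intro w hw
      have h1 := iso_read2 hn k hk hkn C out ℓ hℓ hC f hf w hw
      calc n ^ 2 ≤ 2 * 10 ^ 4 * (k ^ 2 * 4 ^ k * (T * w)) := h1
        _ = 2 * 10 ^ 4 * k ^ 2 * 4 ^ k * T * w := by ring
    refine ⟨fun D => dec_bound (f out) _ _ hw D, fun h hh => minor_bound (f out) _ n hw h ?_⟩
    have h16 : (16 : ℕ) ^ k = (4 ^ k) ^ 2 := by rw [← pow_mul, mul_comm k 2, pow_mul]; norm_num
    calc 4 * (2 * 10 ^ 4 * k ^ 2 * 4 ^ k * T) ^ 2 * h ^ 3 * Fintype.card V =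
        16 * 10 ^ 8 * k ^ 4 * 16 ^ k * h ^ 3 * T ^ 2 * Fintype.card V := by rw [h16]; ring
      _ < n ^ 4 := hh
  · intro m hm hn hs
    obtain ⟨h1, K, h2, h3⟩ := any_read hm hn C out ℓ hC f hf hs
    refine ⟨fun D => ?_, fun h hh => minor_bound (f out) K n h2 h (h3 h hh)⟩
    classical
    obtain ⟨i0, -⟩ := D.cover (f out)
    have hfin := D.fin
    obtain ⟨im, -, him⟩ := Finset.exists_max_image (Finset.univ : Finset D.ι)
      (fun i => (D.bag i).card) ⟨i0, Finset.mem_univ _⟩
    exact ⟨im, h1 _ (halves_of_dec D _ (fun i => him i (Finset.mem_univ i)) ⟨f out⟩)⟩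

end Pool.Agent.Results.MP_128e7d_lc.MinorFreeCircuitsH15
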