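import Mathlib
import Pool.Agent.V7H65.RK.Main

/-!
# Graph isomorphism and branching programs that read every bit at most `k` times

`IsIso z` is the graph isomorphism function for graphs on `n` labelled vertices: the input
`z : Var n → Bool` consists of the `n(n-1)` adjacency bits of the two graphs. `DegTwoPair z` says
that both graphs have maximum degree at most two.

`NBP V s` is the type of nondeterministic branching programs with `s` nodes; `ReadK k` says that
no path from the source to the sink tests a variable more than `k` times. `accProb μ P z` is the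
acceptance probability of the input `z` for the randomised program that runs the program `P j`
with probability `μ j`.

The theorem: neither nondeterminism, nor co-nondeterminism, nor randomness helps read-`k` programs
to decide graph isomorphism in size `2 ^ o(n)`, even for disjoint unions of paths and cycles; the
bounds are superpolynomial as long as `k` is at most `c log n / log log n`.
-/

namespace Pool.Agent.Results.MP_128e7d_lc.ReadKProgramsH65

open Pool.Agent.H526R2.GI Pool.Agent.V7H65.RK

/-- There is a constant `C ≥ 1` such that, for `a = n / (C k) ^ (C k)` (rounded down), on pairs of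
graphs with `n` vertices and maximum degree at most two: every nondeterministic read-`k` program
for isomorphism, and every nondeterministic read-`k` program for non-isomorphism, has at least
`2 ^ a` nodes, and a randomised read-`k` program with at most `2 ^ a` nodes has advantage at most
`2 ^ (-a)` in telling isomorphic pairs from non-isomorphic ones. -/
theorem result : ∃ C : ℕ, 0 < C ∧ ∀ k n s : ℕ, 1 ≤ k →
    (∀ P : NBP (Var n) s, P.ReadK k → (∀ z, DegTwoPair z → (P.Accepts z ↔ IsIso z)) →
      2 ^ (n / (C * k) ^ (C * k)) ≤ s) ∧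
    (∀ P : NBP (Var n) s, P.ReadK k → (∀ z, DegTwoPair z → (P.Accepts z ↔ ¬ IsIso z)) →
      2 ^ (n / (C * k) ^ (C * k)) ≤ s) ∧
    (∀ (ι : Type) [Fintype ι] (μ : ι → ℝ) (P : ι → NBP (Var n) s) (α β : ℝ),
      (∀ j, 0 ≤ μ j) → ∑ j, μ j = 1 → (∀ j, (P j).ReadK k ∧ (P j).Deterministic) →
      α ≤ 1 → 0 ≤ β →
      ((∀ z, DegTwoPair z → IsIso z → α ≤ accProb μ P z) ∧
          (∀ z, DegTwoPair z → ¬ IsIso z → accProb μ P z ≤ β) ∨
        (∀ z, DegTwoPair z → ¬ IsIso z → α ≤ accProb μ P z) ∧
          (∀ z, DegTwoPair z → IsIso z → accProb μ P z ≤ β)) →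
      s ≤ 2 ^ (n / (C * k) ^ (C * k)) → α - β ≤ 1 / 2 ^ (n / (C * k) ^ (C * k))) := by
  refine ⟨1000, by norm_num, fun k n s hk => ⟨fun P hP h => iso_bound P hk hP h,
    fun P hP h => noniso_bound P hk hP h, ?_⟩⟩
  intro ι _ μ P α β hμ hμ1 hP hα hβ h hs
  rcases Nat.eq_zero_or_pos (aa k n) with ha | ha
  · unfold aa at ha
    rw [ha, pow_zero, div_one]
    linarith
  obtain ⟨hn, hnk, hm, hmn⟩ := params hk ha
  obtain ⟨g, hg⟩ := exists_placement hmn
  rcases h with ⟨h1, h2⟩ | ⟨h1, h2⟩
  · exact core_rand μ P hk hμ hμ1 (fun j => (hP j).1) (fun j => (hP j).2)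
      (inp g (strt (mm k n) 0)) 0 1 (Or.inl ⟨rfl, rfl⟩) ha hs α β
      (fun f hf => h1 _ (degTwoPair_elim f g hf hg 0 0) (isIso_elim f g hf hg 0))
      (fun f hf => h2 _ (degTwoPair_elim f g hf hg 1 0) (not_isIso_elim hm f g hf hg))
  · exact core_rand μ P hk hμ hμ1 (fun j => (hP j).1) (fun j => (hP j).2)
      (inp g (strt (mm k n) 0)) 1 0 (Or.inr ⟨rfl, rfl⟩) ha hs α β
      (fun f hf => h1 _ (degTwoPair_elim f g hf hg 1 0) (not_isIso_elim hm f g hf hg))
      (fun f hf => h2 _ (degTwoPair_elim f g hf hg 0 0) (isIso_elim f g hf hg 0))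

end Pool.Agent.Results.MP_128e7d_lc.ReadKProgramsH65
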